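import Pool.Agent.W312.WT.Stm

/-!
# The lower bound (part SLow of project WT)
-/

set_option autoImplicit false

namespace Pool.Agent.W298.WT.SLow

open Pool.Agent.W312.WT

/-- the job at position `i` -/
def nm (L : List (ℕ × ℕ)) (i : Fin L.length) : Jb := ((L.get i).1, (L.get i).2, (i : ℕ))

theorem named_eq (L : List (ℕ × ℕ)) : named L = List.ofFn (nm L) := by
  refine List.ext_getElem ?_ ?_
  · simp [named]
  · intro i h1 h2
    simp [named, nm]

theorem nm_mem (L : List (ℕ × ℕ)) (i : Fin L.length) : nm L i ∈ named L := by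
  rw [named_eq, List.mem_ofFn]
  exact ⟨i, rfl⟩

theorem tc_mono (x : Jb) {t t' : ℕ} (h : t ≤ t') : tc x t ≤ tc x t' := by
  unfold tc
  exact Nat.mul_le_mul_left _ (Nat.sub_le_sub_right h _)

theorem cz_mono : ∀ (l : List Jb) (ts ts' : List ℕ), List.Forall₂ (· ≤ ·) ts ts' →
    cz l ts ≤ cz l ts'
  | [], ts, ts', _ => by simp [cz]
  | _ :: _, [], _, h => by
    cases h
    exact le_rfl
  | x :: l, t :: ts, _, h => by
    cases h with
    | cons h1 h2 =>
      rw [cz_cons, cz_cons]
      exact Nat.add_le_add (tc_mono x h1) (cz_mono l ts _ h2)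

theorem cz_map' (J : ℕ → Jb) (f : ℕ → ℕ) : ∀ l : List ℕ,
    cz (l.map J) (l.map f) = (l.map fun j => tc (J j) (f j)).sum
  | [] => by simp [cz]
  | j :: l => by
    rw [List.map_cons, List.map_cons, cz_cons, cz_map' J f l, List.map_cons, List.sum_cons]

theorem sum_range (g : ℕ → ℕ) (n : ℕ) :
    ((List.range n).map g).sum = ∑ j ∈ Finset.range n, g j := by
  induction n with
  | zero => simp
  | succ n ih =>
    rw [List.range_succ, List.map_append, List.sum_append, ih, Finset.sum_range_succ]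
    simp

theorem proof_SLow : SLow := by
  intro hLen hCpl hNA hNB hSrt hDu hAvg hLin hRna hRnd hSrf hLsa hTrn hLat p L S hp
  obtain ⟨e, x, hx, hchain⟩ := hSrt p L.length S.compl (fun u => hNA hLen hCpl p _ S u hp)
    (fun u v h1 h2 => hNB hLen hCpl p _ S u v hp h1 h2)
  obtain ⟨hlat, hdue, -⟩ := hLat p (named L) hp
  set J : ℕ → Jb := fun j => if h : j < L.length then nm L (e ⟨j, h⟩) else (0, 0, 0) with hJ
  have hJe : ∀ j : Fin L.length, J j = nm L (e j) := by
    intro j
    simp only [hJ, dif_pos j.2]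
  obtain ⟨y, y0, yS, yN, yJ, ycost⟩ := hRnd hDu hAvg hLin hRna p L.length (latS p (named L)) x
    (fun j => (J j).1) (fun j => (J j).2.1) hp hlat
    (fun j hj => by
      have := hdue (nm L (e ⟨j, hj⟩)) (nm_mem L _)
      have h2 : J j = nm L (e ⟨j, hj⟩) := hJe ⟨j, hj⟩
      simp only [h2]
      exact this) hchain
  have hsrf := hSrf p L.length (latS p (named L)) y hp hlat y0 yS yN yJ
  obtain ⟨l₀, hperm, hchn⟩ := hLsa p L.length y y0 (fun j hj => (yS j hj).2) hsrf
  set f : ℕ → ℕ := fun j => (y (j + 1)).toNat with hf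
  have hl₀ : ∀ j ∈ l₀, j < L.length := fun j hj => List.mem_range.1 (hperm.mem_iff.1 hj)
  have hfc : ∀ j, j < L.length → ((f j : ℕ) : ℤ) = y (j + 1) := fun j hj =>
    Int.toNat_of_nonneg (yS (j + 1) (by omega)).2
  obtain ⟨t1, t2, t3⟩ := hTrn p (latS p (named L)) (l₀.map f) hlat (by
    intro t ht
    obtain ⟨j, hj, rfl⟩ := List.mem_map.1 ht
    rw [hfc j (hl₀ j hj)]
    exact (yS (j + 1) (by have := hl₀ j hj; omega)).1) hchn
  have hlen : (trunc p 0 (l₀.map f)).length = (l₀.map J).length := by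
    rw [t3.length_eq, List.length_map, List.length_map]
  refine ⟨(l₀.map J).zip (trunc p 0 (l₀.map f)), ?_, ?_, ?_, ?_⟩
  · rw [List.map_fst_zip (by rw [hlen])]
    refine (hperm.map J).trans ?_
    have h1 : (List.range L.length).map J = List.ofFn (nm L ∘ e) := by
      refine List.ext_getElem ?_ ?_
      · simp
      · intro i h1 h2
        rw [List.getElem_map, List.getElem_range, List.getElem_ofFn]
        exact hJe ⟨i, by simpa using h1⟩
    rw [h1, named_eq]
    exact Equiv.Perm.ofFn_comp_perm e (nm L)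
  · rw [List.map_snd_zip (by rw [hlen])]
    exact t1
  · intro q hq
    exact t2 _ (List.of_mem_zip hq).2
  · rw [cst_zip]
    have c1 : cz (l₀.map J) (trunc p 0 (l₀.map f)) ≤ ∑ j ∈ Finset.range L.length, tc (J j) (f j) := by
      refine (cz_mono _ _ _ t3).trans ?_
      rw [cz_map', (hperm.map fun j => tc (J j) (f j)).sum_eq, sum_range]
    have c2 : ((∑ j ∈ Finset.range L.length, tc (J j) (f j) : ℕ) : ℝ) =
        ∑ j ∈ Finset.range L.length, ((J j).1 : ℝ) * max 0 ((y (j + 1) : ℝ) - (J j).2.1) := by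
      rw [Nat.cast_sum]
      refine Finset.sum_congr rfl fun j hj => ?_
      have hj' := Finset.mem_range.1 hj
      have h1 : ((y (j + 1) : ℤ) : ℝ) = (f j : ℝ) := by
        rw [← hfc j hj']
        simp
      rw [h1]
      unfold tc
      rw [Nat.cast_mul]
      congr 1
      rcases le_total (J j).2.1 (f j) with h | h
      · rw [Nat.cast_sub h, max_eq_right]
        have : ((J j).2.1 : ℝ) ≤ f j := by exact_mod_cast h
        linarith
      · rw [Nat.sub_eq_zero_of_le h, max_eq_left, Nat.cast_zero]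
        have : (f j : ℝ) ≤ (J j).2.1 := by exact_mod_cast h
        linarith
    have c3 : ∑ j ∈ Finset.range L.length, ((J j).1 : ℝ) * max 0 (x (j + 1) - (J j).2.1) =
        S.cost L := by
      unfold Sched.cost
      rw [Finset.sum_range]
      rw [← Equiv.sum_comp e (fun j => ((L.get j).1 : ℝ) * max 0 (S.compl j - ((L.get j).2 : ℝ)))]
      refine Finset.sum_congr rfl fun j _ => ?_
      rw [hJe j, hx j]
      rfl
    have c4 : (cz (l₀.map J) (trunc p 0 (l₀.map f)) : ℝ) ≤
        ((∑ j ∈ Finset.range L.length, tc (J j) (f j) : ℕ) : ℝ) := by exact_mod_cast c1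
    rw [c2] at c4
    exact c4.trans (ycost.trans (le_of_eq c3))

end Pool.Agent.W298.WT.SLow
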