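import Pool.Agent.W312.WT.Stm
import Pool.Agent.W298.WT.SLow

/-!
# The explicit schedule of a chain (part SOut of project WT)
-/

set_option autoImplicit false

namespace Pool.Agent.W298.WT.SOut

open Pool.Agent.W312.WT Pool.Agent.W298.WT.SLow

/-- the times `a, ts` as a function -/
def tm (a : ℕ) (ts : List ℕ) (k : ℕ) : ℕ := (a :: ts).getD k 0

theorem tm_zero (a : ℕ) (ts : List ℕ) : tm a ts 0 = a := rfl

theorem tm_succ (a t : ℕ) (ts : List ℕ) (k : ℕ) : tm a (t :: ts) (k + 1) = tm t ts k := rfl

theorem tm_chn {p : ℕ} : ∀ (ts : List ℕ) (s a : ℕ), ChnT p s a ts → ∀ k < ts.length,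
    tm a ts k ≤ tm a ts (k + 1) ∧ tm a ts (k + 1) ≤ tm a ts k + p ∧
      (s + k + 1) * p ≤ tm a ts k + tm a ts (k + 1)
  | [], _, _, _, k, hk => by simp at hk
  | t :: ts, s, a, h, 0, _ => by
    obtain ⟨h1, h2, h3, -⟩ := h
    refine ⟨h1, h2, ?_⟩
    change (s + 0 + 1) * p ≤ a + t
    rw [add_zero]
    exact h3
  | t :: ts, s, a, h, k + 1, hk => by
    have := tm_chn ts (s + 1) t h.2.2.2 k (by simpa using hk)
    rw [tm_succ, tm_succ]
    have e : s + (k + 1) + 1 = s + 1 + k + 1 := by omega
    rw [e]
    exact this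

theorem outL_mem (p : ℕ) : ∀ (l : List (Jb × ℕ)) (s a k : ℕ) (h : k < l.length),
    ((l[k]).1.2.2, pcs p (s + k) (tm a (l.map Prod.snd) k) (tm a (l.map Prod.snd) (k + 1))) ∈
      outL p s a l
  | [], _, _, k, hk => by simp at hk
  | e :: l, s, a, 0, _ => by
    simp [outL, tm]
  | e :: l, s, a, k + 1, hk => by
    have := outL_mem p l (s + 1) e.2 k (by simpa using hk)
    rw [outL]
    refine List.mem_cons_of_mem _ ?_
    have e1 : s + (k + 1) = s + 1 + k := by omega
    rw [e1]
    exact this

theorem outL_keys (p : ℕ) : ∀ (l : List (Jb × ℕ)) (s a : ℕ),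
    (outL p s a l).map Prod.fst = l.map fun e => e.1.2.2
  | [], _, _ => rfl
  | e :: l, s, a => by
    rw [outL, List.map_cons, List.map_cons, outL_keys p l]

theorem fm_nil {β : Type} (j : ℕ) : ∀ (K : List (ℕ × List β)), j ∉ K.map Prod.fst →
    (K.flatMap fun q => if q.1 = j then q.2 else []) = []
  | [], _ => rfl
  | q :: K, h => by
    rw [List.map_cons, List.mem_cons, not_or] at h
    rw [List.flatMap_cons, if_neg (Ne.symm h.1), List.nil_append, fm_nil j K h.2]

theorem fm {β : Type} (j : ℕ) (v : List β) : ∀ (K : List (ℕ × List β)), (K.map Prod.fst).Nodup →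
    (j, v) ∈ K → (K.flatMap fun q => if q.1 = j then q.2 else []) = v
  | [], _, h => by simp at h
  | q :: K, hn, h => by
    rw [List.map_cons, List.nodup_cons] at hn
    rw [List.flatMap_cons]
    rcases List.mem_cons.1 h with h | h
    · subst h
      rw [if_pos rfl, fm_nil j K hn.1, List.append_nil]
    · have hne : q.1 ≠ j := by
        intro he
        exact hn.1 (List.mem_map.2 ⟨(j, v), h, he.symm⟩)
      rw [if_neg hne, List.nil_append, fm j v K hn.2 h]

theorem sum_get (l : List (Jb × ℕ)) : cst l = ∑ k : Fin l.length, tc (l.get k).1 (l.get k).2 := by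
  unfold cst
  rw [← List.sum_ofFn]
  congr 1
  refine List.ext_getElem (by simp) ?_
  intro i h1 h2
  simp

theorem mem_pcs {p s a t : ℕ} {r : Bool × ℕ × ℕ} : r ∈ pcs p s a t ↔
    (r = (false, a, t) ∧ a < t) ∨
    (r = (true, s * p - a, (s + 1) * p - t) ∧ s * p - a < (s + 1) * p - t) := by
  unfold pcs
  rw [List.mem_append]
  split_ifs with h1 h2 h2 <;> simp [h1, h2]

theorem proof_SOut : SOut := by
  classical
  intro p L l hp hperm hch
  have hlen : l.length = L.length := by
    have := hperm.length_eq
    rw [List.length_map, named_eq, List.length_ofFn] at this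
    exact this
  have hnames : (l.map fun e => e.1.2.2).Nodup := by
    have h1 : ((l.map Prod.fst).map fun x : Jb => x.2.2).Perm
      ((named L).map fun x : Jb => x.2.2) := hperm.map _
    have h2 : (named L).map (fun x : Jb => x.2.2) = List.range L.length := by
      rw [named_eq]
      refine List.ext_getElem (by simp) ?_
      intro i h1 h2
      simp [nm]
    rw [h2, List.map_map] at h1
    exact h1.nodup_iff.2 List.nodup_range
  have hex : ∀ k : Fin L.length, ∃ i : Fin L.length,
      nm L i = (l.get (Fin.cast hlen.symm k)).1 := by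
    intro k
    have h1 : (l.get (Fin.cast hlen.symm k)).1 ∈ l.map Prod.fst :=
      List.mem_map.2 ⟨_, List.get_mem _ _, rfl⟩
    have h2 := hperm.mem_iff.1 h1
    rw [named_eq, List.mem_ofFn] at h2
    exact h2
  choose σ hσ using hex
  have hinj : Function.Injective σ := by
    intro k k' hkk
    have h1 : (l.get (Fin.cast hlen.symm k)).1.2.2 = (l.get (Fin.cast hlen.symm k')).1.2.2 := by
      rw [← hσ, ← hσ, hkk]
    have h2 := (List.Nodup.getElem_inj_iff hnames (i := (k : ℕ)) (hi := by simp [hlen])
      (j := (k' : ℕ)) (hj := by simp [hlen])).1 (by simpa using h1)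
    exact Fin.ext h2
  set τ : Equiv.Perm (Fin L.length) := Equiv.ofBijective σ
    (Finite.injective_iff_bijective.1 hinj) with hτ
  have hτσ : ∀ k, τ k = σ k := fun k => rfl
  clear_value τ
  set C : ℕ → ℕ := tm 0 (l.map Prod.snd) with hC
  have hC0 : C 0 = 0 := rfl
  have hstep : ∀ k < L.length, C k ≤ C (k + 1) ∧ C (k + 1) ≤ C k + p ∧
      (k + 1) * p ≤ C k + C (k + 1) := by
    intro k hk
    have := tm_chn (l.map Prod.snd) 0 0 hch k (by simp [hlen, hk])
    rw [zero_add] at this
    exact this
  have hCsucc : ∀ k : Fin L.length, C (k + 1) = (l.get (Fin.cast hlen.symm k)).2 := by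
    intro k
    have h1 : (k : ℕ) < (l.map Prod.snd).length := by simp [hlen]
    have : C (k + 1) = (l.map Prod.snd).getD k 0 := rfl
    rw [this, List.getD_eq_getElem _ _ h1]
    simp
  clear_value C
  have hCle : ∀ k ≤ L.length, C k ≤ k * p := by
    intro k
    induction k with
    | zero => intro _; rw [hC0]; exact Nat.zero_le _
    | succ k ih =>
      intro hk
      have h1 := ih (by omega)
      have h2 := (hstep k (by omega)).2.1
      rw [Nat.add_mul, one_mul]
      omega
  set D : ℕ → ℕ := fun k => k * p - C k with hD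
  have hDle : ∀ k < L.length, D k ≤ D (k + 1) ∧ D (k + 1) ≤ C k := by
    intro k hk
    obtain ⟨h1, h2, h3⟩ := hstep k hk
    have h4 := hCle k hk.le
    simp only [hD, Nat.add_mul, one_mul] at h3 ⊢
    constructor <;> omega
  have hCmono : ∀ k k', k ≤ k' → k' ≤ L.length → C k ≤ C k' := by
    intro k k' h
    induction h with
    | refl => intro _; exact le_rfl
    | step h ih => intro hk; exact (ih (by omega)).trans (hstep _ (by omega)).1
  have hDmono : ∀ k k', k ≤ k' → k' ≤ L.length → D k ≤ D k' := by
    intro k k' h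
    induction h with
    | refl => intro _; exact le_rfl
    | step h ih => intro hk; exact (ih (by omega)).trans (hDle _ (by omega)).1
  set pc : Fin L.length → List (Bool × ℕ × ℕ) := fun j =>
    pcs p (τ.symm j) (C (τ.symm j)) (C (τ.symm j + 1)) with hpc
  have hpcm : ∀ j r, r ∈ pc j ↔
      (r = (false, C (τ.symm j), C (τ.symm j + 1)) ∧ C (τ.symm j) < C (τ.symm j + 1)) ∨
      (r = (true, D (τ.symm j), D (τ.symm j + 1)) ∧ D (τ.symm j) < D (τ.symm j + 1)) := by
    intro j r
    exact mem_pcs
  have hout : ∀ j : Fin L.length, (output p L.length l).getD j [] = pc j := by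
    intro j
    have h1 : (output p L.length l).getD j [] =
        (outL p 0 0 l).flatMap fun q => if q.1 = (j : ℕ) then q.2 else [] := by
      unfold output
      rw [List.getD_eq_getElem _ _ (by simp), List.getElem_map, List.getElem_range]
    rw [h1]
    refine fm (j : ℕ) _ _ (by rw [outL_keys]; exact hnames) ?_
    have h2 := outL_mem p l 0 0 (τ.symm j : ℕ) (by rw [hlen]; exact (τ.symm j).2)
    have h3 : (l[(τ.symm j : ℕ)]'(by rw [hlen]; exact (τ.symm j).2)).1.2.2 = (j : ℕ) := by
      have h4 := hσ (τ.symm j)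
      have h5 : σ (τ.symm j) = j := by rw [← hτσ, Equiv.apply_symm_apply]
      rw [h5] at h4
      have h6 : (nm L j).2.2 = (j : ℕ) := rfl
      rw [h4] at h6
      exact h6
    rw [h3, zero_add, ← hC] at h2
    exact h2
  have hcast : Function.Injective castP := by
    rintro ⟨b, x, y⟩ ⟨b', x', y'⟩ h
    simp only [castP, Prod.mk.injEq, Nat.cast_inj] at h
    obtain ⟨rfl, rfl, rfl⟩ := h
    rfl
  have hmem : ∀ j (q : Bool × ℝ × ℝ), q ∈ ((pc j).map castP).toFinset ↔
      ∃ r ∈ pc j, castP r = q := by
    intro j q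
    rw [List.mem_toFinset, List.mem_map]
  -- the schedule
  let S : Sched p L.length :=
    { pieces := fun j => ((pc j).map castP).toFinset
      pos := by
        intro j q hq
        obtain ⟨r, hr, rfl⟩ := (hmem j q).1 hq
        rcases (hpcm j r).1 hr with ⟨rfl, h⟩ | ⟨rfl, h⟩
        · exact ⟨Nat.cast_nonneg _, Nat.cast_lt.2 h⟩
        · exact ⟨Nat.cast_nonneg _, Nat.cast_lt.2 h⟩
      total := by
        intro j
        obtain ⟨h1, h2, h3⟩ := hstep _ (τ.symm j).2
        have h4 := hCle _ (τ.symm j).2.le
        obtain ⟨h5, h6⟩ := hDle _ (τ.symm j).2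
        have hre : ((C (τ.symm j + 1) : ℕ) : ℝ) - C (τ.symm j) +
            (((D (τ.symm j + 1) : ℕ) : ℝ) - D (τ.symm j)) = p := by
          have h7 : C (τ.symm j + 1) + D (τ.symm j + 1) = C (τ.symm j) + D (τ.symm j) + p := by
            simp only [hD, Nat.add_mul, one_mul] at h3 ⊢
            omega
          have h8 : ((C (τ.symm j + 1) : ℕ) : ℝ) + D (τ.symm j + 1) =
              C (τ.symm j) + D (τ.symm j) + p := by exact_mod_cast h7
          linarith
        have e : pc j = (if C (τ.symm j) < C (τ.symm j + 1) then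
            [(false, C (τ.symm j), C (τ.symm j + 1))] else []) ++
            (if D (τ.symm j) < D (τ.symm j + 1) then
            [(true, D (τ.symm j), D (τ.symm j + 1))] else []) := rfl
        rw [e]
        split_ifs with c1 c2 c2
        · simp only [List.cons_append, List.nil_append, List.map_cons, List.map_nil, castP,
            List.toFinset_cons, List.toFinset_nil]
          rw [Finset.sum_insert (by simp), insert_empty_eq, Finset.sum_singleton]
          exact hre
        · have c3 : D (τ.symm j + 1) = D (τ.symm j) := le_antisymm (not_lt.1 c2) h5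
          rw [c3, sub_self, add_zero] at hre
          simp only [List.append_nil, List.map_cons, List.map_nil, castP,
            List.toFinset_cons, List.toFinset_nil, insert_empty_eq, Finset.sum_singleton]
          exact hre
        · have c3 : C (τ.symm j + 1) = C (τ.symm j) := le_antisymm (not_lt.1 c1) h1
          rw [c3, sub_self, zero_add] at hre
          simp only [List.nil_append, List.map_cons, List.map_nil, castP,
            List.toFinset_cons, List.toFinset_nil, insert_empty_eq, Finset.sum_singleton]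
          exact hre
        · have c3 : C (τ.symm j + 1) = C (τ.symm j) := le_antisymm (not_lt.1 c1) h1
          have c4 : D (τ.symm j + 1) = D (τ.symm j) := le_antisymm (not_lt.1 c2) h5
          rw [c3, c4, sub_self, sub_self, add_zero] at hre
          simp only [List.append_nil, List.map_nil, List.toFinset_nil, Finset.sum_empty]
          exact hre
      disj := by
        intro i j q hq r hr hne hor
        obtain ⟨q', hq', rfl⟩ := (hmem i q).1 hq
        obtain ⟨r', hr', rfl⟩ := (hmem j r).1 hr
        have key : ∀ i j : Fin L.length, (τ.symm i : ℕ) < (τ.symm j : ℕ) →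
            C (τ.symm i + 1) ≤ C (τ.symm j) ∧ D (τ.symm i + 1) ≤ D (τ.symm j) := fun i j h =>
          ⟨hCmono _ _ h (τ.symm j).2.le, hDmono _ _ h (τ.symm j).2.le⟩
        have hij : i ≠ j → (τ.symm i : ℕ) < (τ.symm j : ℕ) ∨ (τ.symm j : ℕ) < (τ.symm i : ℕ) := by
          intro h
          rcases lt_trichotomy (τ.symm i : ℕ) (τ.symm j : ℕ) with h1 | h1 | h1
          · exact Or.inl h1
          · exact absurd (τ.symm.injective (Fin.ext h1)) h
          · exact Or.inr h1
        rcases (hpcm i q').1 hq' with ⟨rfl, h⟩ | ⟨rfl, h⟩ <;>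
          rcases (hpcm j r').1 hr' with ⟨rfl, h'⟩ | ⟨rfl, h'⟩
        · have hne' : i ≠ j := by
            rintro rfl
            exact hne rfl
          rcases hij hne' with h1 | h1
          · exact Or.inl (Nat.cast_le.2 (key i j h1).1)
          · exact Or.inr (Nat.cast_le.2 (key j i h1).1)
        · rcases hor with rfl | h1
          · exact Or.inr (Nat.cast_le.2 (hDle _ (τ.symm i).2).2)
          · simp [castP] at h1
        · rcases hor with rfl | h1
          · exact Or.inl (Nat.cast_le.2 (hDle _ (τ.symm i).2).2)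
          · simp [castP] at h1
        · have hne' : i ≠ j := by
            rintro rfl
            exact hne rfl
          rcases hij hne' with h1 | h1
          · exact Or.inl (Nat.cast_le.2 (key i j h1).2)
          · exact Or.inr (Nat.cast_le.2 (key j i h1).2) }
  refine ⟨S, ?_, ?_, ?_⟩
  · intro j q
    rw [hout j]
    exact hmem j q
  · intro j
    refine (List.toFinset_card_le _).trans ?_
    rw [List.length_map]
    change (pcs _ _ _ _).length ≤ 2
    unfold pcs
    split_ifs <;> simp
  · have hcompl : ∀ j, S.compl j ≤ (C (τ.symm j + 1) : ℝ) := by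
      intro j
      unfold Sched.compl
      refine Real.sSup_le ?_ (Nat.cast_nonneg _)
      rintro _ ⟨q, hq, rfl⟩
      obtain ⟨r, hr, rfl⟩ := (hmem j q).1 hq
      rcases (hpcm j r).1 hr with ⟨rfl, h⟩ | ⟨rfl, h⟩
      · exact le_rfl
      · exact Nat.cast_le.2 ((hDle _ (τ.symm j).2).2.trans (hstep _ (τ.symm j).2).1)
    have h1 : (cst l : ℝ) = ∑ j : Fin L.length, (tc (nm L j) (C (τ.symm j + 1)) : ℝ) := by
      rw [sum_get, Nat.cast_sum, ← Equiv.sum_comp (finCongr hlen.symm), ← Equiv.sum_comp τ.symm]
      refine Finset.sum_congr rfl fun j _ => ?_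
      have h2 : nm L j = (l.get (Fin.cast hlen.symm (τ.symm j))).1 := by
        rw [← hσ, ← hτσ, Equiv.apply_symm_apply]
      rw [h2, hCsucc]
      rfl
    rw [h1]
    unfold Sched.cost
    refine Finset.sum_le_sum fun j _ => ?_
    have h3 : (tc (nm L j) (C (τ.symm j + 1)) : ℝ) = ((L.get j).1 : ℝ) *
        (((C (τ.symm j + 1) - (L.get j).2 : ℕ)) : ℝ) := by
      unfold tc nm
      push_cast
      rfl
    rw [h3]
    refine mul_le_mul_of_nonneg_left ?_ (Nat.cast_nonneg _)
    refine max_le (Nat.cast_nonneg _) ?_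
    have h4 : (C (τ.symm j + 1) : ℝ) ≤ ((C (τ.symm j + 1) - (L.get j).2 : ℕ) : ℝ) +
        ((L.get j).2 : ℝ) := by
      have : C (τ.symm j + 1) ≤ (C (τ.symm j + 1) - (L.get j).2) + (L.get j).2 := by omega
      exact_mod_cast this
    have := hcompl j
    linarith

end Pool.Agent.W298.WT.SOut
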